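import Pool.Agent.V11250.WT.Wang2

/-!
# The finite condition is primitive recursive
-/

set_option autoImplicit false

namespace Pool.Agent.V11250.WT

open Set Primrec

section general

variable {α β : Type*} [Primcodable α] [Primcodable β]

theorem pimp {p q : α → Prop} (hp : PrimrecPred p) (hq : PrimrecPred q) :
    PrimrecPred fun a => p a → q a :=
  (hp.not.or hq).of_eq fun a => by tauto

theorem pallL {f : α → List β} {P : α × β → Prop} (hf : Primrec f) (hP : PrimrecPred P) :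
    PrimrecPred fun a => ∀ b ∈ f a, P (a, b) := by
  have h1 : PrimrecRel fun (b : β) (a : α) => P (a, b) := by
    have : PrimrecPred fun c : β × α => P (c.2, c.1) := hP.comp (Primrec.pair snd fst)
    exact this.primrecRel
  exact h1.forall_mem_list.comp hf Primrec.id

theorem pexL {f : α → List β} {P : α × β → Prop} (hf : Primrec f) (hP : PrimrecPred P) :
    PrimrecPred fun a => ∃ b ∈ f a, P (a, b) := by
  have h1 : PrimrecRel fun (b : β) (a : α) => P (a, b) := by
    have : PrimrecPred fun c : β × α => P (c.2, c.1) := hP.comp (Primrec.pair snd fst)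
    exact this.primrecRel
  exact h1.exists_mem_list.comp hf Primrec.id

theorem pall {f : α → ℕ} {P : α × ℕ → Prop} (hf : Primrec f) (hP : PrimrecPred P) :
    PrimrecPred fun a => ∀ i < f a, P (a, i) :=
  (pallL (list_range.comp hf) hP).of_eq fun a => by simp

theorem pex {f : α → ℕ} {P : α × ℕ → Prop} (hf : Primrec f) (hP : PrimrecPred P) :
    PrimrecPred fun a => ∃ i < f a, P (a, i) :=
  (pexL (list_range.comp hf) hP).of_eq fun a => by simp

end general

theorem prim_fact : Primrec Nat.factorial := by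
  have h : Primrec (Nat.rec 1 fun n r => (n + 1) * r : ℕ → ℕ) := by
    refine nat_rec₁ 1 ?_
    exact nat_mul.comp (Primrec.succ.comp fst) snd
  refine h.of_eq fun n => ?_
  induction n with
  | zero => rfl
  | succ n ih =>
    rw [Nat.factorial_succ, ← ih]

theorem prim_sq {α : Type*} [Primcodable α] {f : α → ℕ} (hf : Primrec f) :
    Primrec fun a => f a ^ 2 :=
  (nat_mul.comp hf hf).of_eq fun a => by ring

theorem prim_radN : Primrec radN := by
  have h2 : Primrec fun n : ℕ => 2 * n ^ 2 := nat_mul.comp (Primrec.const 2) (prim_sq Primrec.id)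
  have h3 : Primrec fun n : ℕ => n ^ 2 * n := nat_mul.comp (prim_sq Primrec.id) Primrec.id
  have h4 : Primrec fun n : ℕ => 4 * Nat.factorial (2 * n ^ 2) * (n ^ 2 * n) + 2 * n ^ 2 + 2 * n :=
    nat_add.comp (nat_add.comp (nat_mul.comp (nat_mul.comp (Primrec.const 4) (prim_fact.comp h2)) h3) h2)
      (nat_mul.comp (Primrec.const 2) Primrec.id)
  refine h4.of_eq fun n => ?_
  unfold radN
  ring

theorem prim_KK : Primrec KK :=
  nat_add.comp (nat_mul.comp (Primrec.const 2) prim_radN) (Primrec.const 1)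

theorem prim_side {α : Type*} [Primcodable α] {f g : α → ℕ} (hf : Primrec f) (hg : Primrec g) :
    Primrec fun a => side (f a) (g a) :=
  nat_add.comp (nat_mul.comp (Primrec.const 2) hg) (prim_KK.comp hf)

theorem prim_tileAt {α : Type*} [Primcodable α] {p : α → List Tile} {k i j : α → ℕ}
    (hp : Primrec p) (hk : Primrec k) (hi : Primrec i) (hj : Primrec j) :
    Primrec fun a => tileAt (p a) (k a) (i a) (j a) :=
  (list_getD _).comp hp (nat_add.comp (nat_mul.comp hi hk) hj)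

theorem prim_north : Primrec north := fst

theorem prim_east : Primrec east := fst.comp snd

theorem prim_south : Primrec south := fst.comp (snd.comp snd)

theorem prim_west : Primrec west := snd.comp (snd.comp snd)

theorem prim_AdjN : PrimrecPred fun a : List Tile × ℕ => AdjN a.1 a.2 := by
  have hp : Primrec fun b : ((List Tile × ℕ) × ℕ) × ℕ => b.1.1.1 := fst.comp (fst.comp fst)
  have hk : Primrec fun b : ((List Tile × ℕ) × ℕ) × ℕ => b.1.1.2 := snd.comp (fst.comp fst)
  have hi : Primrec fun b : ((List Tile × ℕ) × ℕ) × ℕ => b.1.2 := snd.comp fst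
  have hj : Primrec fun b : ((List Tile × ℕ) × ℕ) × ℕ => b.2 := snd
  have hi' : Primrec fun b : ((List Tile × ℕ) × ℕ) × ℕ => b.1.2 + 1 := Primrec.succ.comp hi
  have hj' : Primrec fun b : ((List Tile × ℕ) × ℕ) × ℕ => b.2 + 1 := Primrec.succ.comp hj
  have h1 : PrimrecPred fun b : ((List Tile × ℕ) × ℕ) × ℕ =>
      (b.1.2 + 1 < b.1.1.2 → east (tileAt b.1.1.1 b.1.1.2 b.1.2 b.2) =
        west (tileAt b.1.1.1 b.1.1.2 (b.1.2 + 1) b.2)) ∧
      (b.2 + 1 < b.1.1.2 → north (tileAt b.1.1.1 b.1.1.2 b.1.2 b.2) =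
        south (tileAt b.1.1.1 b.1.1.2 b.1.2 (b.2 + 1))) := by
    refine PrimrecPred.and (pimp (Primrec.nat_lt.comp hi' hk) ?_) (pimp (Primrec.nat_lt.comp hj' hk) ?_)
    · exact Primrec.eq.comp (prim_east.comp (prim_tileAt hp hk hi hj))
        (prim_west.comp (prim_tileAt hp hk hi' hj))
    · exact Primrec.eq.comp (prim_north.comp (prim_tileAt hp hk hi hj))
        (prim_south.comp (prim_tileAt hp hk hi hj'))
  exact pall (P := fun c : (List Tile × ℕ) × ℕ => ∀ j < c.1.2,
      (c.2 + 1 < c.1.2 → east (tileAt c.1.1 c.1.2 c.2 j) = west (tileAt c.1.1 c.1.2 (c.2 + 1) j)) ∧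
      (j + 1 < c.1.2 → north (tileAt c.1.1 c.1.2 c.2 j) = south (tileAt c.1.1 c.1.2 c.2 (j + 1))))
    snd (pall (snd.comp fst) h1)

/-- The body of the finite condition. -/
def Body (p : List Tile) (n m : ℕ) : Prop :=
  AdjN p (side n m) → QN n (KK n) fun i j => tileAt p (side n m) (m + i) (m + j)

theorem prim_Body : PrimrecPred fun a : List Tile × ℕ × ℕ => Body a.1 a.2.1 a.2.2 := by
  refine pimp (prim_AdjN.comp (Primrec.pair fst (prim_side (fst.comp snd) (snd.comp snd)))) ?_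
  -- the innermost relations, context `((((a, a'), b), i), j)`
  let Γ := ((((List Tile × ℕ × ℕ) × ℕ) × ℕ) × ℕ) × ℕ
  have hp : Primrec fun b : Γ => b.1.1.1.1.1 := fst.comp (fst.comp (fst.comp (fst.comp fst)))
  have hnm : Primrec fun b : Γ => b.1.1.1.1.2 := snd.comp (fst.comp (fst.comp (fst.comp fst)))
  have hn : Primrec fun b : Γ => b.1.1.1.1.2.1 := fst.comp hnm
  have hm : Primrec fun b : Γ => b.1.1.1.1.2.2 := snd.comp hnm
  have ha : Primrec fun b : Γ => b.1.1.1.2 := snd.comp (fst.comp (fst.comp fst))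
  have hb : Primrec fun b : Γ => b.1.1.2 := snd.comp (fst.comp fst)
  have hi : Primrec fun b : Γ => b.1.2 := snd.comp fst
  have hj : Primrec fun b : Γ => b.2 := snd
  have hk : Primrec fun b : Γ => side b.1.1.1.1.2.1 b.1.1.1.1.2.2 := prim_side hn hm
  have hKK : Primrec fun b : Γ => KK b.1.1.1.1.2.1 := prim_KK.comp hn
  have hia : Primrec fun b : Γ => b.1.2 + b.1.1.1.2 := nat_add.comp hi ha
  have hjb : Primrec fun b : Γ => b.2 + b.1.1.2 := nat_add.comp hj hb
  have f1 : Primrec fun b : Γ => tileAt b.1.1.1.1.1 (side b.1.1.1.1.2.1 b.1.1.1.1.2.2)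
      (b.1.1.1.1.2.2 + (b.1.2 + b.1.1.1.2)) (b.1.1.1.1.2.2 + (b.2 + b.1.1.2)) :=
    prim_tileAt hp hk (nat_add.comp hm hia) (nat_add.comp hm hjb)
  have f2 : Primrec fun b : Γ => tileAt b.1.1.1.1.1 (side b.1.1.1.1.2.1 b.1.1.1.1.2.2)
      (b.1.1.1.1.2.2 + b.1.2) (b.1.1.1.1.2.2 + b.2) :=
    prim_tileAt hp hk (nat_add.comp hm hi) (nat_add.comp hm hj)
  have f3 : Primrec fun b : Γ => tileAt b.1.1.1.1.1 (side b.1.1.1.1.2.1 b.1.1.1.1.2.2)
      (b.1.1.1.1.2.2 + (b.1.2 + b.1.1.1.2)) (b.1.1.1.1.2.2 + b.2) :=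
    prim_tileAt hp hk (nat_add.comp hm hia) (nat_add.comp hm hj)
  have f4 : Primrec fun b : Γ => tileAt b.1.1.1.1.1 (side b.1.1.1.1.2.1 b.1.1.1.1.2.2)
      (b.1.1.1.1.2.2 + b.1.2) (b.1.1.1.1.2.2 + (b.2 + b.1.1.2)) :=
    prim_tileAt hp hk (nat_add.comp hm hi) (nat_add.comp hm hjb)
  have c1 : PrimrecPred fun b : Γ => b.1.2 + b.1.1.1.2 < KK b.1.1.1.1.2.1 →
      b.2 + b.1.1.2 < KK b.1.1.1.1.2.1 →
      tileAt b.1.1.1.1.1 (side b.1.1.1.1.2.1 b.1.1.1.1.2.2)
        (b.1.1.1.1.2.2 + (b.1.2 + b.1.1.1.2)) (b.1.1.1.1.2.2 + (b.2 + b.1.1.2)) =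
      tileAt b.1.1.1.1.1 (side b.1.1.1.1.2.1 b.1.1.1.1.2.2)
        (b.1.1.1.1.2.2 + b.1.2) (b.1.1.1.1.2.2 + b.2) :=
    pimp (Primrec.nat_lt.comp hia hKK) (pimp (Primrec.nat_lt.comp hjb hKK) (Primrec.eq.comp f1 f2))
  have c2 : PrimrecPred fun b : Γ => b.1.2 + b.1.1.1.2 < KK b.1.1.1.1.2.1 →
      b.2 + b.1.1.2 < KK b.1.1.1.1.2.1 →
      tileAt b.1.1.1.1.1 (side b.1.1.1.1.2.1 b.1.1.1.1.2.2)
        (b.1.1.1.1.2.2 + (b.1.2 + b.1.1.1.2)) (b.1.1.1.1.2.2 + b.2) =
      tileAt b.1.1.1.1.1 (side b.1.1.1.1.2.1 b.1.1.1.1.2.2)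
        (b.1.1.1.1.2.2 + b.1.2) (b.1.1.1.1.2.2 + (b.2 + b.1.1.2)) :=
    pimp (Primrec.nat_lt.comp hia hKK) (pimp (Primrec.nat_lt.comp hjb hKK) (Primrec.eq.comp f3 f4))
  have hn3 : Primrec fun b : (((List Tile × ℕ × ℕ) × ℕ) × ℕ) × ℕ => KK b.1.1.1.2.1 :=
    prim_KK.comp (fst.comp (snd.comp (fst.comp (fst.comp fst))))
  have hn2 : Primrec fun b : ((List Tile × ℕ × ℕ) × ℕ) × ℕ => KK b.1.1.2.1 :=
    prim_KK.comp (fst.comp (snd.comp (fst.comp fst)))
  have d1 := pall hn2 (pall hn3 c1)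
  have d2 := pall hn2 (pall hn3 c2)
  have e : PrimrecPred fun b : ((List Tile × ℕ × ℕ) × ℕ) × ℕ => ¬ (b.1.2 = 0 ∧ b.2 = 0) :=
    ((Primrec.eq.comp (snd.comp fst) (Primrec.const 0)).and
      (Primrec.eq.comp snd (Primrec.const 0))).not
  have g := e.and (d1.or d2)
  have hs1 : Primrec fun b : (List Tile × ℕ × ℕ) × ℕ => b.1.2.1 + 1 :=
    Primrec.succ.comp (fst.comp (snd.comp fst))
  have hs0 : Primrec fun b : List Tile × ℕ × ℕ => b.2.1 + 1 := Primrec.succ.comp (fst.comp snd)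
  exact pex hs0 (pex hs1 g)

/-- All lists of length `L` with entries in `S`. -/
def allL (S : List Tile) (L : ℕ) : List (List Tile) :=
  Nat.rec [[]] (fun _ acc => acc.flatMap fun p => S.map fun t => t :: p) L

theorem mem_allL (S : List Tile) (L : ℕ) (p : List Tile) :
    p ∈ allL S L ↔ p.length = L ∧ ∀ t ∈ p, t ∈ S := by
  induction L generalizing p with
  | zero =>
    change p ∈ [[]] ↔ _
    simp only [List.mem_singleton, List.length_eq_zero_iff]
    constructor
    · rintro rfl; simp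
    · exact fun h => h.1
  | succ L ih =>
    change p ∈ (allL S L).flatMap (fun p => S.map fun t => t :: p) ↔ _
    simp only [List.mem_flatMap, List.mem_map]
    constructor
    · rintro ⟨q, hq, t, ht, rfl⟩
      rw [ih] at hq
      refine ⟨by simp [hq.1], ?_⟩
      intro s hs
      rcases List.mem_cons.1 hs with rfl | hs
      · exact ht
      · exact hq.2 s hs
    · rintro ⟨h1, h2⟩
      cases p with
      | nil => simp at h1
      | cons t q =>
        refine ⟨q, (ih q).2 ⟨by simpa using h1, fun s hs => h2 s (List.mem_cons_of_mem _ hs)⟩, t,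
          h2 t List.mem_cons_self, rfl⟩

theorem prim_allL : Primrec₂ allL := by
  have h0 : Primrec fun _ : List Tile => ([[]] : List (List Tile)) := Primrec.const _
  have h1 : Primrec₂ fun (S : List Tile) (q : ℕ × List (List Tile)) =>
      q.2.flatMap fun p => S.map fun t => t :: p := by
    have h2 : Primrec₂ fun (c : List Tile × (ℕ × List (List Tile))) (p : List Tile) =>
        c.1.map fun t => t :: p := by
      have h3 : Primrec₂ fun (d : (List Tile × (ℕ × List (List Tile))) × List Tile) (t : Tile) =>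
          t :: d.2 := list_cons.comp snd (snd.comp fst)
      exact list_map (fst.comp fst) h3
    exact list_flatMap (snd.comp snd) h2
  exact nat_rec h0 h1

theorem prim_Cond : PrimrecPred fun a : List Tile × ℕ × ℕ => Cond a.1 a.2.1 a.2.2 := by
  have hs : Primrec fun a : List Tile × ℕ × ℕ => side a.2.1 a.2.2 :=
    prim_side (fst.comp snd) (snd.comp snd)
  have h1 : Primrec fun a : List Tile × ℕ × ℕ => allL a.1 (side a.2.1 a.2.2 * side a.2.1 a.2.2) :=
    prim_allL.comp fst (nat_mul.comp hs hs)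
  have h2 : PrimrecPred fun b : (List Tile × ℕ × ℕ) × List Tile => Body b.2 b.1.2.1 b.1.2.2 :=
    prim_Body.comp (Primrec.pair snd (snd.comp fst))
  refine (pallL h1 h2).of_eq fun a => ?_
  simp only [mem_allL, Cond, Body]
  constructor
  · intro h p h1 h2 h3
    exact h p ⟨h1, h2⟩ h3
  · intro h p h1 h3
    exact h p h1.1 h1.2 h3

end Pool.Agent.V11250.WT
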