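import Mathlib

/-!
# Wang tiles, tilings of the plane, and the arithmetical hierarchy

A *Wang tile* is a quadruple of colours (natural numbers): the colours of its north, east, south and
west edge.  A prototile set is given by a list of tiles; `Encodable.encode` is the standard effective
coding of lists of quadruples of natural numbers by natural numbers.
-/

set_option autoImplicit false

namespace Pool.Agent.V11250.WT

/-- A Wang tile: the colours of its north, east, south and west edges. -/
abbrev Tile : Type := ℕ × ℕ × ℕ × ℕ

/-- The colour of the north edge. -/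
def north (t : Tile) : ℕ := t.1

/-- The colour of the east edge. -/
def east (t : Tile) : ℕ := t.2.1

/-- The colour of the south edge. -/
def south (t : Tile) : ℕ := t.2.2.1

/-- The colour of the west edge. -/
def west (t : Tile) : ℕ := t.2.2.2

/-- `T` is a tiling of the whole plane by the prototiles in `S`: adjacent tiles carry the same colour on
their common edge.  The cell `(i, j)` has the neighbour `(i + 1, j)` to the east and the neighbour
`(i, j + 1)` to the north. -/
def IsTiling (S : List Tile) (T : ℤ × ℤ → Tile) : Prop :=
  (∀ x, T x ∈ S) ∧ (∀ i j : ℤ, east (T (i, j)) = west (T (i + 1, j))) ∧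
    ∀ i j : ℤ, north (T (i, j)) = south (T (i, j + 1))

/-- `T` is periodic: it is invariant under a nonzero translation. -/
def IsPeriodic (T : ℤ × ℤ → Tile) : Prop := ∃ v : ℤ × ℤ, v ≠ 0 ∧ ∀ x, T (x + v) = T x

/-- The codes of the finite prototile sets which admit a tiling of the plane and all of whose tilings
are periodic. -/
def PTileFin : Set ℕ :=
  {c | ∃ S : List Tile, Encodable.encode S = c ∧ (∃ T, IsTiling S T) ∧
    ∀ T, IsTiling S T → IsPeriodic T}

/-- The codes of the finite prototile sets all of whose tilings of the plane are periodic (prototile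
sets without tilings included). -/
def AllPeriodic : Set ℕ :=
  {c | ∃ S : List Tile, Encodable.encode S = c ∧ ∀ T, IsTiling S T → IsPeriodic T}

/-- The codes of the finite prototile sets which admit no tiling of the plane. -/
def NoTiling : Set ℕ :=
  {c | ∃ S : List Tile, Encodable.encode S = c ∧ ¬ ∃ T, IsTiling S T}

/-- `Sigma0 n A`: the set `A` of natural numbers is `Σ⁰ₙ`.  `Σ⁰₀` (here) is the class of the computable
sets, and `A` is `Σ⁰ₙ₊₁` if `A = {x | ∃ y, ⟨x, y⟩ ∈ B}` for a set `B` whose complement is `Σ⁰ₙ` (that is,
`B` is `Π⁰ₙ`).  The arithmetical sets are those which are `Σ⁰ₙ` for some `n`. -/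
def Sigma0 : ℕ → Set ℕ → Prop
  | 0, A => ComputablePred fun x => x ∈ A
  | n + 1, A => ∃ B : Set ℕ, Sigma0 n Bᶜ ∧ ∀ x, x ∈ A ↔ ∃ y, Nat.pair x y ∈ B

end Pool.Agent.V11250.WT
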