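import Mathlib

/-!
# Gluing local periods of bounded length

If every ball of radius `rad n` of a map `T : ℤ × ℤ → α` has a nonzero period with entries of absolute
value at most `n`, then `T` has a nonzero period.
-/

set_option autoImplicit false

namespace Pool.Agent.V11250.WT

/-- `nb r v`: both entries of `v` have absolute value at most `r`. -/
def nb (r : ℤ) (v : ℤ × ℤ) : Prop := |v.1| ≤ r ∧ |v.2| ≤ r

/-- `v` is a period of `T` on the ball with centre `x` and radius `r`. -/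
def PerOn {α : Type*} (T : ℤ × ℤ → α) (x : ℤ × ℤ) (r : ℤ) (v : ℤ × ℤ) : Prop :=
  ∀ z, nb r z → nb r (z + v) → T (x + (z + v)) = T (x + z)

/-- The ball with centre `x` and radius `r` has a nonzero period of size at most `n`. -/
def Loc {α : Type*} (T : ℤ × ℤ → α) (n r : ℤ) (x : ℤ × ℤ) : Prop :=
  ∃ v, v ≠ 0 ∧ nb n v ∧ PerOn T x r v

/-- The determinant of two vectors. -/
def dt (a b : ℤ × ℤ) : ℤ := a.1 * b.2 - a.2 * b.1

variable {α : Type*} {T : ℤ × ℤ → α}

theorem PerOn.mono {x : ℤ × ℤ} {r s : ℤ} {v : ℤ × ℤ} (h : PerOn T x r v) (hs : s ≤ r) :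
    PerOn T x s v := by
  intro z hz hz'
  exact h z ⟨hz.1.trans hs, hz.2.trans hs⟩ ⟨hz'.1.trans hs, hz'.2.trans hs⟩

theorem abs_between {a b k m r : ℤ} (h0 : 0 ≤ k) (h1 : k ≤ m) (ha : |a| ≤ r) (hb : |a + m * b| ≤ r) :
    |a + k * b| ≤ r := by
  rw [abs_le] at *
  rcases le_total 0 b with hb0 | hb0
  · constructor <;> nlinarith
  · constructor <;> nlinarith

theorem perOn_nat {x : ℤ × ℤ} {r : ℤ} {v : ℤ × ℤ} (h : PerOn T x r v) (k : ℕ) :
    PerOn T x r ((k : ℤ) • v) := by
  intro z hz hz'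
  have hmid : ∀ i : ℕ, i ≤ k → nb r (z + (i : ℤ) • v) := by
    intro i hi
    have hi' : (i : ℤ) ≤ k := by exact_mod_cast hi
    constructor
    · have := hz'.1
      simp only [Prod.fst_add, Prod.smul_fst, smul_eq_mul] at this ⊢
      exact abs_between (by positivity) hi' hz.1 this
    · have := hz'.2
      simp only [Prod.snd_add, Prod.smul_snd, smul_eq_mul] at this ⊢
      exact abs_between (by positivity) hi' hz.2 this
  have key : ∀ i : ℕ, i ≤ k → T (x + (z + (i : ℤ) • v)) = T (x + z) := by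
    intro i
    induction i with
    | zero => intro _; simp
    | succ i ih =>
      intro hi
      have h1 := h (z + (i : ℤ) • v) (hmid i (by omega)) (by
        have := hmid (i + 1) hi
        rw [show z + (i : ℤ) • v + v = z + ((i + 1 : ℕ) : ℤ) • v by push_cast; module]
        exact this)
      rw [show x + (z + ((i + 1 : ℕ) : ℤ) • v) = x + (z + (i : ℤ) • v + v) by push_cast; module, h1]
      exact ih (by omega)
  exact key k le_rfl

theorem PerOn.neg {x : ℤ × ℤ} {r : ℤ} {v : ℤ × ℤ} (h : PerOn T x r v) : PerOn T x r (-v) := by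
  intro z hz hz'
  have := h (z + -v) hz' (by rw [show z + -v + v = z by abel]; exact hz)
  rw [show z + -v + v = z by abel] at this
  exact this.symm

theorem PerOn.smul {x : ℤ × ℤ} {r : ℤ} {v : ℤ × ℤ} (h : PerOn T x r v) (k : ℤ) :
    PerOn T x r (k • v) := by
  rcases Int.eq_nat_or_neg k with ⟨m, rfl | rfl⟩
  · exact perOn_nat h m
  · have := (perOn_nat h m).neg
    rwa [show -((m : ℤ) • v) = (-(m : ℤ)) • v by module] at this

theorem nb_smul {n : ℤ} {v : ℤ × ℤ} (hv : nb n v) (k : ℤ) : nb (|k| * n) (k • v) := by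
  constructor
  · simp only [Prod.smul_fst, smul_eq_mul, abs_mul]
    exact mul_le_mul_of_nonneg_left hv.1 (abs_nonneg _)
  · simp only [Prod.smul_snd, smul_eq_mul, abs_mul]
    exact mul_le_mul_of_nonneg_left hv.2 (abs_nonneg _)

theorem nb_add {a b : ℤ} {v w : ℤ × ℤ} (hv : nb a v) (hw : nb b w) : nb (a + b) (v + w) :=
  ⟨(abs_add_le _ _).trans (add_le_add hv.1 hw.1), (abs_add_le _ _).trans (add_le_add hv.2 hw.2)⟩

theorem nb.mono {a b : ℤ} {v : ℤ × ℤ} (hv : nb a v) (h : a ≤ b) : nb b v :=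
  ⟨hv.1.trans h, hv.2.trans h⟩

theorem nb_neg {a : ℤ} {v : ℤ × ℤ} (hv : nb a v) : nb a (-v) := by
  constructor
  · simpa using hv.1
  · simpa using hv.2

/-- The number `(2 n²)!`. -/
def MM (n : ℕ) : ℤ := (Nat.factorial (2 * n ^ 2) : ℕ)

theorem MM_pos (n : ℕ) : 0 < MM n := by
  unfold MM
  exact_mod_cast Nat.factorial_pos _

theorem dvd_MM {n : ℕ} {d : ℤ} (hd : d ≠ 0) (h : |d| ≤ 2 * n ^ 2) : d ∣ MM n := by
  unfold MM
  rw [← Int.natAbs_dvd_natAbs, Int.natAbs_natCast]
  apply Nat.dvd_factorial (Int.natAbs_pos.2 hd)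
  have : ((d.natAbs : ℕ) : ℤ) ≤ 2 * n ^ 2 := by rw [Int.natCast_natAbs]; exact h
  exact_mod_cast this

/-- The inner radius. -/
def rho (n : ℕ) : ℤ := 4 * MM n * n ^ 3

/-- The outer radius. -/
def rad (n : ℕ) : ℤ := rho n + 2 * n ^ 2 + 2 * n

theorem abs_dt_le {n m : ℤ} {a b : ℤ × ℤ} (ha : nb n a) (hb : nb m b) :
    |dt a b| ≤ 2 * (n * m) := by
  unfold dt
  have hn : 0 ≤ n := (abs_nonneg _).trans ha.1
  have h1 : |a.1 * b.2| ≤ n * m := by rw [abs_mul]; exact mul_le_mul ha.1 hb.2 (abs_nonneg _) hn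
  have h2 : |a.2 * b.1| ≤ n * m := by rw [abs_mul]; exact mul_le_mul ha.2 hb.1 (abs_nonneg _) hn
  have h3 := abs_sub (a.1 * b.2) (a.2 * b.1)
  linarith

theorem cramer (u w z : ℤ × ℤ) : dt u w • z = dt z w • u + dt u z • w := by
  unfold dt
  ext
  · simp; ring
  · simp; ring

/-- A doubly periodic ball: the centre and its translate by `M • p` have the same value. -/
theorem dbl {n : ℕ} (hn : 1 ≤ n) {x : ℤ × ℤ} {u w : ℤ × ℤ} (hu : nb n u) (hw : nb n w)
    (h1 : PerOn T x (rho n) u) (h2 : PerOn T x (rho n) w) (hd : dt u w ≠ 0) {p : ℤ × ℤ}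
    (hp : nb n p) : T (x + MM n • p) = T x := by
  have hdm : |dt u w| ≤ 2 * (n : ℤ) ^ 2 := by
    have := abs_dt_le hu hw
    nlinarith
  obtain ⟨c, hc⟩ := dvd_MM hd hdm
  have hM := MM_pos n
  have hn' : (1 : ℤ) ≤ n := by exact_mod_cast hn
  have hcabs : |c| ≤ MM n := by
    have h3 : |dt u w| * |c| = MM n := by rw [← abs_mul, ← hc, abs_of_pos hM]
    have h4 : 1 ≤ |dt u w| := Int.one_le_abs hd
    nlinarith [abs_nonneg c]
  set A := c * dt p w with hA
  set B := c * dt u p with hB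
  have hAb : |A| ≤ 2 * MM n * n ^ 2 := by
    rw [hA, abs_mul]
    have := abs_dt_le hp hw
    have h5 : |c| * |dt p w| ≤ MM n * (2 * ((n : ℤ) * n)) :=
      mul_le_mul hcabs this (abs_nonneg _) hM.le
    nlinarith
  have hBb : |B| ≤ 2 * MM n * n ^ 2 := by
    rw [hB, abs_mul]
    have := abs_dt_le hu hp
    have h5 : |c| * |dt u p| ≤ MM n * (2 * ((n : ℤ) * n)) :=
      mul_le_mul hcabs this (abs_nonneg _) hM.le
    nlinarith
  have hV : MM n • p = A • u + B • w := by
    have := cramer u w p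
    rw [hc, mul_comm (dt u w) c, mul_smul, this, smul_add, smul_smul, smul_smul]
  have hAu : nb (2 * MM n * n ^ 3) (A • u) := by
    refine (nb_smul hu A).mono ?_
    calc |A| * (n : ℤ) ≤ (2 * MM n * n ^ 2) * n := mul_le_mul_of_nonneg_right hAb (by positivity)
      _ = 2 * MM n * n ^ 3 := by ring
  have hBw : nb (2 * MM n * n ^ 3) (B • w) := by
    refine (nb_smul hw B).mono ?_
    calc |B| * (n : ℤ) ≤ (2 * MM n * n ^ 2) * n := mul_le_mul_of_nonneg_right hBb (by positivity)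
      _ = 2 * MM n * n ^ 3 := by ring
  have hrho : 2 * MM n * (n : ℤ) ^ 3 + 2 * MM n * n ^ 3 = rho n := by unfold rho; ring
  have hpos : 0 ≤ 2 * MM n * (n : ℤ) ^ 3 := by positivity
  have e1 : T (x + (0 + A • u)) = T (x + 0) := (h1.smul A) 0 (by
      constructor
      · simp only [Prod.fst_zero, abs_zero]; linarith
      · simp only [Prod.snd_zero, abs_zero]; linarith) (by
      rw [zero_add]; exact hAu.mono (by linarith))
  have e2 : T (x + (A • u + B • w)) = T (x + A • u) := (h2.smul B) (A • u)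
    (hAu.mono (by linarith)) ((nb_add hAu hBw).mono (by linarith))
  rw [hV, e2]
  simpa using e1

end Pool.Agent.V11250.WT
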