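import Pool.Agent.V11250.WT.Glue

/-!
# Gluing local periods: the global period
-/

set_option autoImplicit false

namespace Pool.Agent.V11250.WT

variable {α : Type*} {T : ℤ × ℤ → α}

/-- Every nonzero vector is a multiple of a primitive one, which divides all parallel vectors. -/
theorem prim {n : ℤ} {v : ℤ × ℤ} (hv : v ≠ 0) (hn : nb n v) :
    ∃ p : ℤ × ℤ, p ≠ 0 ∧ nb n p ∧ (∃ g : ℤ, g ≠ 0 ∧ v = g • p) ∧
      ∀ w, w ≠ 0 → nb n w → dt p w = 0 → ∃ a : ℤ, a ≠ 0 ∧ |a| ≤ n ∧ w = a • p := by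
  obtain ⟨v1, v2⟩ := v
  have hg : Int.gcd v1 v2 ≠ 0 := by
    intro h
    rw [Int.gcd_eq_zero_iff] at h
    exact hv (by rw [h.1, h.2]; rfl)
  have hg0 : ((Int.gcd v1 v2 : ℕ) : ℤ) ≠ 0 := by exact_mod_cast hg
  obtain ⟨p1, hp1⟩ : ((Int.gcd v1 v2 : ℕ) : ℤ) ∣ v1 := Int.gcd_dvd_left ..
  obtain ⟨p2, hp2⟩ : ((Int.gcd v1 v2 : ℕ) : ℤ) ∣ v2 := Int.gcd_dvd_right ..
  set g : ℤ := ((Int.gcd v1 v2 : ℕ) : ℤ) with hgdef
  have hbez : g = v1 * Int.gcdA v1 v2 + v2 * Int.gcdB v1 v2 := Int.gcd_eq_gcd_ab v1 v2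
  set s := Int.gcdA v1 v2
  set t := Int.gcdB v1 v2
  have h1 : p1 * s + p2 * t = 1 := by
    have : g * (p1 * s + p2 * t) = g * 1 := by
      calc g * (p1 * s + p2 * t) = (g * p1) * s + (g * p2) * t := by ring
        _ = v1 * s + v2 * t := by rw [← hp1, ← hp2]
        _ = g * 1 := by rw [← hbez, mul_one]
    exact mul_left_cancel₀ hg0 this
  have hp0 : (p1, p2) ≠ (0 : ℤ × ℤ) := by
    intro h
    have h' := Prod.ext_iff.1 h
    simp only [Prod.fst_zero, Prod.snd_zero] at h'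
    rw [h'.1, h'.2] at h1
    simp at h1
  have hgpos : 1 ≤ |g| := Int.one_le_abs hg0
  refine ⟨(p1, p2), hp0, ⟨?_, ?_⟩, ⟨g, hg0, by ext <;> simp <;> assumption⟩, ?_⟩
  · have h2 := hn.1
    simp only at h2 ⊢
    rw [hp1, abs_mul] at h2
    nlinarith [abs_nonneg p1]
  · have h2 := hn.2
    simp only at h2 ⊢
    rw [hp2, abs_mul] at h2
    nlinarith [abs_nonneg p2]
  · rintro ⟨w1, w2⟩ hw hwn hd
    unfold dt at hd
    simp only at hd
    have hd' : p1 * w2 = p2 * w1 := by linarith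
    have e1 : w1 = (s * w1 + t * w2) * p1 := by
      calc w1 = (p1 * s + p2 * t) * w1 := by rw [h1, one_mul]
        _ = s * w1 * p1 + t * (p2 * w1) := by ring
        _ = s * w1 * p1 + t * (p1 * w2) := by rw [hd']
        _ = (s * w1 + t * w2) * p1 := by ring
    have e2 : w2 = (s * w1 + t * w2) * p2 := by
      calc w2 = (p1 * s + p2 * t) * w2 := by rw [h1, one_mul]
        _ = s * (p1 * w2) + t * w2 * p2 := by ring
        _ = s * (p2 * w1) + t * w2 * p2 := by rw [hd']
        _ = (s * w1 + t * w2) * p2 := by ring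
    set a := s * w1 + t * w2 with ha
    have ha0 : a ≠ 0 := by
      intro h
      rw [h, zero_mul] at e1 e2
      exact hw (by rw [e1, e2]; rfl)
    refine ⟨a, ha0, ?_, ?_⟩
    · rcases eq_or_ne p1 0 with h | h
      · have hp2' : p2 ≠ 0 := by
          intro h2
          exact hp0 (by rw [h, h2]; rfl)
        have h3 := hwn.2
        simp only at h3
        rw [e2, abs_mul] at h3
        have := Int.one_le_abs hp2'
        nlinarith [abs_nonneg a]
      · have h3 := hwn.1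
        simp only at h3
        rw [e1, abs_mul] at h3
        have := Int.one_le_abs h
        nlinarith [abs_nonneg a]
    · ext
      · simpa using e1
      · simpa using e2

/-- The windows of radius `rho n` at `x` and `y` are the same. -/
def Same (T : ℤ × ℤ → α) (n : ℕ) (x y : ℤ × ℤ) : Prop := ∀ z, nb (rho n) z → T (y + z) = T (x + z)

theorem Same.perOn {n : ℕ} {x y : ℤ × ℤ} (h : Same T n x y) {v : ℤ × ℤ}
    (hv : PerOn T y (rho n) v) : PerOn T x (rho n) v := by
  intro z hz hz'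
  rw [← h z hz, ← h (z + v) hz']
  exact hv z hz hz'

theorem rho_le_rad {n : ℕ} : rho n ≤ rad n := by
  unfold rad
  have : (0 : ℤ) ≤ 2 * n ^ 2 + 2 * n := by positivity
  linarith

/-- A ball without two independent periods: its window repeats along a line. -/
theorem line {n : ℕ} (hn : 1 ≤ n) (hT : ∀ x, Loc T n (rad n) x) (x : ℤ × ℤ)
    (hx : ∀ u w, nb n u → nb n w → PerOn T x (rho n) u → PerOn T x (rho n) w → dt u w = 0) :
    ∃ p : ℤ × ℤ, p ≠ 0 ∧ nb n p ∧
      (∀ y, Same T n x y → ∃ a : ℤ, a ≠ 0 ∧ |a| ≤ n ∧ PerOn T y (rad n) (a • p)) ∧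
      (∀ t : ℤ, ∃ c : ℤ, |c - t| ≤ n ∧ Same T n x (x + c • p)) ∧
      (∀ w, w ≠ 0 → nb n w → PerOn T x (rho n) w → ∃ a : ℤ, a ≠ 0 ∧ |a| ≤ n ∧ w = a • p) ∧
      (∀ w, w ≠ 0 → nb n w → dt p w = 0 → ∃ a : ℤ, a ≠ 0 ∧ |a| ≤ n ∧ w = a • p) := by
  obtain ⟨v0, hv0, hvn, hvp⟩ := hT x
  obtain ⟨p, hp, hpn, ⟨g, hg, hgv⟩, hpw'⟩ := prim hv0 hvn
  have hpw : ∀ w, w ≠ 0 → nb n w → dt v0 w = 0 → ∃ a : ℤ, a ≠ 0 ∧ |a| ≤ n ∧ w = a • p := by
    intro w hw hwn hd
    refine hpw' w hw hwn ?_
    have : g * dt p w = 0 := by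
      rw [← hd, hgv]
      simp [dt]
      ring
    exact (mul_eq_zero.1 this).resolve_left hg
  have hn' : (1 : ℤ) ≤ n := by exact_mod_cast hn
  have hvp' : PerOn T x (rho n) v0 := hvp.mono rho_le_rad
  have hper : ∀ y, Same T n x y → ∃ a : ℤ, a ≠ 0 ∧ |a| ≤ n ∧ PerOn T y (rad n) (a • p) := by
    intro y hy
    obtain ⟨w, hw0, hwn, hwp⟩ := hT y
    obtain ⟨a, ha, han, haw⟩ := hpw w hw0 hwn
      (hx v0 w hvn hwn hvp' (hy.perOn (hwp.mono rho_le_rad)))
    exact ⟨a, ha, han, haw ▸ hwp⟩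
  have hstep : ∀ y, Same T n x y → ∃ a : ℤ, 1 ≤ a ∧ a ≤ n ∧ Same T n x (y + a • p) ∧
      Same T n x (y + (-a) • p) := by
    intro y hy
    obtain ⟨a, ha, han, haw⟩ := hper y hy
    have hs : ∀ b : ℤ, |b| ≤ n → PerOn T y (rad n) (b • p) → Same T n x (y + b • p) := by
      intro b hb hbp z hz
      have hrz : nb (rad n) z := hz.mono rho_le_rad
      have hbn : nb (n * n) (b • p) :=
        (nb_smul hpn b).mono (mul_le_mul_of_nonneg_right hb (by positivity))
      have h1 := hbp z hrz ((nb_add hz hbn).mono (by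
        unfold rad
        nlinarith))
      rw [show y + b • p + z = y + (z + b • p) by abel, h1]
      exact hy z hz
    rcases le_total 0 a with h | h
    · refine ⟨a, by omega, by rwa [abs_of_nonneg h] at han, hs a han haw, ?_⟩
      refine hs (-a) (by rwa [abs_neg]) ?_
      have := haw.neg
      rwa [← neg_smul] at this
    · refine ⟨-a, by omega, by rwa [abs_of_nonpos h] at han, ?_, ?_⟩
      · refine hs (-a) (by rwa [abs_neg]) ?_
        have := haw.neg
        rwa [← neg_smul] at this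
      · rw [neg_neg]
        exact hs a han haw
  have hup : ∀ t : ℕ, ∃ c : ℤ, (t : ℤ) ≤ c ∧ c ≤ t + n ∧ Same T n x (x + c • p) := by
    intro t
    induction t with
    | zero => exact ⟨0, by simp, by push_cast; omega, by simp [Same]⟩
    | succ t ih =>
      obtain ⟨c, h1, h2, h3⟩ := ih
      rcases lt_or_ge c (t + 1 : ℤ) with h | h
      · obtain ⟨a, ha1, ha2, ha3, -⟩ := hstep _ h3
        refine ⟨c + a, by push_cast; omega, by push_cast; omega, ?_⟩
        rwa [show x + (c + a) • p = x + c • p + a • p by module]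
      · exact ⟨c, by push_cast; omega, by push_cast; omega, h3⟩
  have hdown : ∀ t : ℕ, ∃ c : ℤ, c ≤ -(t : ℤ) ∧ -(t : ℤ) - n ≤ c ∧ Same T n x (x + c • p) := by
    intro t
    induction t with
    | zero => exact ⟨0, by simp, by push_cast; omega, by simp [Same]⟩
    | succ t ih =>
      obtain ⟨c, h1, h2, h3⟩ := ih
      rcases lt_or_ge (-(t : ℤ) - 1) c with h | h
      · obtain ⟨a, ha1, ha2, -, ha3⟩ := hstep _ h3
        refine ⟨c - a, by push_cast; omega, by push_cast; omega, ?_⟩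
        rwa [show x + (c - a) • p = x + c • p + (-a) • p by module]
      · exact ⟨c, by push_cast; omega, by push_cast; omega, h3⟩
  refine ⟨p, hp, hpn, hper, ?_, ?_, hpw'⟩
  · intro t
    rcases Int.eq_nat_or_neg t with ⟨m, rfl | rfl⟩
    · obtain ⟨c, h1, h2, h3⟩ := hup m
      exact ⟨c, by rw [abs_of_nonneg (by omega)]; omega, h3⟩
    · obtain ⟨c, h1, h2, h3⟩ := hdown m
      exact ⟨c, by rw [abs_of_nonpos (by omega)]; omega, h3⟩
  · intro w hw hwn hwp
    exact hpw w hw hwn (hx v0 w hvn hwn hvp' hwp)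

theorem MM_le_rho {n : ℕ} (hn : 1 ≤ n) : MM n * n ≤ rho n := by
  unfold rho
  have hM := MM_pos n
  have hn' : (1 : ℤ) ≤ n := by exact_mod_cast hn
  have h2 : (n : ℤ) ≤ n ^ 3 := by nlinarith [sq_nonneg ((n : ℤ) - 1), sq_nonneg (n : ℤ)]
  nlinarith

theorem perOn_MM {n : ℕ} {x p : ℤ × ℤ} {r a : ℤ} (hn : 1 ≤ n) (ha : a ≠ 0) (han : |a| ≤ n)
    (h : PerOn T x r (a • p)) : PerOn T x r (MM n • p) := by
  have hn' : (1 : ℤ) ≤ n := by exact_mod_cast hn
  obtain ⟨b, hb⟩ := dvd_MM (n := n) ha (by nlinarith)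
  have := h.smul b
  rwa [smul_smul, mul_comm b a, ← hb] at this

theorem nb_MM {n : ℕ} {p : ℤ × ℤ} (hp : nb n p) : nb (MM n * n) (MM n • p) := by
  have := nb_smul hp (MM n)
  rwa [abs_of_pos (MM_pos n)] at this

theorem nb_zero {r : ℤ} (hr : 0 ≤ r) : nb r (0 : ℤ × ℤ) := by
  constructor <;> simpa using hr

theorem cross {n : ℕ} {p q d : ℤ × ℤ} (hp : nb n p) (hq : nb n q) (h : dt p q ≠ 0) {c c' : ℤ}
    (hc : |c - dt d q / dt p q| ≤ n) (hc' : |c' - dt d p / dt p q| ≤ n) :
    nb (2 * n ^ 2 + 2 * n) (d - c • p + c' • q) := by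
  set D := dt p q with hD
  set t := dt d q / D with ht
  set s := dt d p / D with hs
  have hDpos : 0 < |D| := abs_pos.2 h
  have e1 : dt d q = D * t + dt d q % D := (Int.mul_ediv_add_emod _ _).symm
  have e2 : dt d p = D * s + dt d p % D := (Int.mul_ediv_add_emod _ _).symm
  have b1 : 0 ≤ dt d q % D := Int.emod_nonneg _ h
  have b2 : 0 ≤ dt d p % D := Int.emod_nonneg _ h
  have b3 : dt d q % D < |D| := Int.emod_lt_abs _ h
  have b4 : dt d p % D < |D| := Int.emod_lt_abs _ h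
  set r1 := dt d q % D
  set r2 := dt d p % D
  have key : ∀ (pi qi di : ℤ), |pi| ≤ n → |qi| ≤ n → D * di = dt d q * pi - dt d p * qi →
      |di - c * pi + c' * qi| ≤ 2 * n ^ 2 + 2 * n := by
    intro pi qi di hpi hqi hdi
    have h1 : D * (di - t * pi + s * qi) = r1 * pi - r2 * qi := by
      have : D * (di - t * pi + s * qi) = (dt d q * pi - dt d p * qi) - (D * t) * pi + (D * s) * qi := by
        rw [← hdi]; ring
      rw [this, e1, e2]
      ring
    have h2 : |D| * |di - t * pi + s * qi| ≤ |D| * (2 * n) := by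
      rw [← abs_mul, h1]
      have h3 := abs_sub (r1 * pi) (r2 * qi)
      rw [abs_mul, abs_mul, abs_of_nonneg b1, abs_of_nonneg b2] at h3
      have h4 : r1 * |pi| ≤ |D| * n := mul_le_mul b3.le hpi (abs_nonneg _) hDpos.le
      have h5 : r2 * |qi| ≤ |D| * n := mul_le_mul b4.le hqi (abs_nonneg _) hDpos.le
      linarith
    have h3 : |di - t * pi + s * qi| ≤ 2 * n := le_of_mul_le_mul_left h2 hDpos
    have h4 : |(c - t) * pi| ≤ n * n := by
      rw [abs_mul]; exact mul_le_mul hc hpi (abs_nonneg _) (by positivity)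
    have h5 : |(c' - s) * qi| ≤ n * n := by
      rw [abs_mul]; exact mul_le_mul hc' hqi (abs_nonneg _) (by positivity)
    have e : di - c * pi + c' * qi = (di - t * pi + s * qi) - (c - t) * pi + (c' - s) * qi := by ring
    rw [e]
    have h6 := abs_add_le ((di - t * pi + s * qi) - (c - t) * pi) ((c' - s) * qi)
    have h7 := abs_sub (di - t * pi + s * qi) ((c - t) * pi)
    nlinarith
  have hcr := cramer p q d
  have hcr1 := congrArg Prod.fst hcr
  have hcr2 := congrArg Prod.snd hcr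
  have hanti : dt p d = - dt d p := by unfold dt; ring
  simp only [Prod.smul_fst, Prod.fst_add, smul_eq_mul, Prod.smul_snd, Prod.snd_add] at hcr1 hcr2
  constructor
  · have := key p.1 q.1 d.1 hp.1 hq.1 (by rw [hcr1, hanti]; ring)
    simpa using this
  · have := key p.2 q.2 d.2 hp.2 hq.2 (by rw [hcr2, hanti]; ring)
    simpa using this

/-- **Gluing.**  If every ball of radius `rad n` has a nonzero period of size at most `n`, then there is
a nonzero global period of size at most `MM n * n`. -/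
theorem glue {n : ℕ} (hT : ∀ x, Loc T n (rad n) x) :
    ∃ w : ℤ × ℤ, w ≠ 0 ∧ nb (MM n * n) w ∧ ∀ x, T (x + w) = T x := by
  have hn : 1 ≤ n := by
    by_contra h
    obtain ⟨v, hv, hvn, -⟩ := hT 0
    have h0 : n = 0 := by omega
    subst h0
    obtain ⟨h1, h2⟩ := hvn
    simp only [Nat.cast_zero] at h1 h2
    exact hv (Prod.ext (abs_nonpos_iff.1 h1) (abs_nonpos_iff.1 h2))
  have hn' : (1 : ℤ) ≤ n := by exact_mod_cast hn
  have hM := MM_pos n
  have hMr := MM_le_rho hn
  have hr0 : (0 : ℤ) ≤ MM n * n := by positivity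
  have hrr : rho n + (2 * (n : ℤ) ^ 2 + 2 * n) = rad n := by unfold rad; ring
  have hrr0 : (0 : ℤ) ≤ 2 * (n : ℤ) ^ 2 + 2 * n := by positivity
  by_cases hall : ∀ x, ∃ u w, nb n u ∧ nb n w ∧ PerOn T x (rho n) u ∧ PerOn T x (rho n) w ∧ dt u w ≠ 0
  · refine ⟨MM n • ((1, 0) : ℤ × ℤ), ?_, nb_MM ⟨by simpa using hn', by simp⟩, ?_⟩
    · intro h
      have := congrArg Prod.fst h
      simp at this
      omega
    · intro x
      obtain ⟨u, w, hu, hw, h1, h2, h3⟩ := hall x
      exact dbl hn hu hw h1 h2 h3 ⟨by simpa using hn', by simp⟩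
  · push Not at hall
    obtain ⟨x0, hx0⟩ := hall
    obtain ⟨p, hp, hpn, hper, hdense, hmul, hpar⟩ := line hn hT x0 (fun u w h1 h2 h3 h4 => by
      by_contra h
      exact h (hx0 u w h1 h2 h3 h4))
    refine ⟨MM n • p, smul_ne_zero hM.ne' hp, nb_MM hpn, ?_⟩
    intro y
    by_cases hy : ∀ u w, nb n u → nb n w → PerOn T y (rho n) u → PerOn T y (rho n) w → dt u w = 0
    · obtain ⟨v, hv, hvn, hvp⟩ := hT y
      by_cases hpv : dt p v = 0
      · obtain ⟨a, ha, han, rfl⟩ := hpar v hv hvn hpv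
        have := perOn_MM hn ha han hvp 0 (nb_zero (by linarith)) (by
          rw [zero_add]
          exact (nb_MM hpn).mono (by linarith))
        simpa using this
      · obtain ⟨q, hq, hqn, -, hdq, hmq, -⟩ := line hn hT y hy
        obtain ⟨b, hb, hbn, hbv⟩ := hmq v hv hvn (hvp.mono rho_le_rad)
        have hpq : dt p q ≠ 0 := by
          intro h
          apply hpv
          rw [hbv]
          have : dt p (b • q) = b * dt p q := by simp [dt]; ring
          rw [this, h, mul_zero]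
        obtain ⟨c, hc, hcs⟩ := hdense (dt (y - x0) q / dt p q)
        obtain ⟨c', hc', hcs'⟩ := hdq (dt (y - x0) p / dt p q)
        have hz := cross (d := y - x0) hpn hqn hpq hc hc'
        obtain ⟨a, ha, han, hap⟩ := hper _ hcs
        have h1 := perOn_MM hn ha han hap (y - x0 - c • p + c' • q) (hz.mono (by linarith))
          ((nb_add hz (nb_MM hpn)).mono (by linarith))
        rw [show x0 + c • p + (y - x0 - c • p + c' • q + MM n • p) = y + c' • q + MM n • p by abel,
          show x0 + c • p + (y - x0 - c • p + c' • q) = y + c' • q + 0 by abel,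
          hcs' _ ((nb_MM hpn).mono hMr), hcs' 0 (nb_zero (by linarith))] at h1
        simpa using h1
    · push Not at hy
      obtain ⟨u, w, hu, hw, h1, h2, h3⟩ := hy
      exact dbl hn hu hw h1 h2 h3 hpn

end Pool.Agent.V11250.WT
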