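import Pool.Agent.V11250.WT.Comp

/-!
# The sets of codes
-/

set_option autoImplicit false

namespace Pool.Agent.V11250.WT

open Set Primrec

/-- The prototile set with code `c`. -/
def dec (c : ℕ) : List Tile := Denumerable.ofNat (List Tile) c

theorem prim_dec : Primrec dec := Primrec.ofNat _

theorem code_iff (P : List Tile → Prop) (c : ℕ) :
    (∃ S : List Tile, Encodable.encode S = c ∧ P S) ↔ P (dec c) := by
  constructor
  · rintro ⟨S, rfl, h⟩
    have : dec (Encodable.encode S) = S := Denumerable.ofNat_encode S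
    rwa [this]
  · intro h
    exact ⟨dec c, Denumerable.encode_ofNat c, h⟩

/-- The finite condition with the numbers `n`, `m` coded by one number. -/
def CC (c y : ℕ) : Prop := Cond (dec c) y.unpair.1 y.unpair.2

theorem prim_CC {f g : ℕ → ℕ} (hf : Primrec f) (hg : Primrec g) :
    PrimrecPred fun z => CC (f z) (g z) :=
  prim_Cond.comp (Primrec.pair (prim_dec.comp hf)
    (Primrec.pair (fst.comp (Primrec.unpair.comp hg)) (snd.comp (Primrec.unpair.comp hg))))

theorem mem_allPeriodic (c : ℕ) : c ∈ AllPeriodic ↔ ∃ y, CC c y := by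
  rw [AllPeriodic, mem_ofPred_eq, code_iff (fun S => ∀ T, IsTiling S T → IsPeriodic T), ← periodic_iff]
  constructor
  · rintro ⟨n, m, h⟩
    exact ⟨Nat.pair n m, by simpa [CC] using h⟩
  · rintro ⟨y, h⟩
    exact ⟨_, _, h⟩

theorem mem_noTiling (c : ℕ) : c ∈ NoTiling ↔ ∃ m, CC c (Nat.pair 0 m) := by
  rw [NoTiling, mem_ofPred_eq, code_iff (fun S => ¬ ∃ T, IsTiling S T), ← no_tiling_iff]
  simp [CC]

theorem mem_pTileFin (c : ℕ) : c ∈ PTileFin ↔ c ∈ AllPeriodic ∧ c ∉ NoTiling := by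
  rw [PTileFin, AllPeriodic, NoTiling, mem_ofPred_eq, mem_ofPred_eq, mem_ofPred_eq,
    code_iff (fun S => (∃ T, IsTiling S T) ∧ ∀ T, IsTiling S T → IsPeriodic T),
    code_iff (fun S => ∀ T, IsTiling S T → IsPeriodic T), code_iff (fun S => ¬ ∃ T, IsTiling S T)]
  tauto

theorem comp_of_prim {p : ℕ → Prop} (h : PrimrecPred p) : ComputablePred p := by
  obtain ⟨hd, h⟩ := h
  exact ⟨hd, h.to_comp⟩

theorem u1 : Primrec fun z : ℕ => z.unpair.1 := fst.comp Primrec.unpair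

theorem u2 : Primrec fun z : ℕ => z.unpair.2 := snd.comp Primrec.unpair

theorem sigma_allPeriodic : Sigma0 1 AllPeriodic := by
  refine ⟨{z | CC z.unpair.1 z.unpair.2}, ?_, fun x => ?_⟩
  · exact comp_of_prim (prim_CC u1 u2).not
  · rw [mem_allPeriodic]
    simp

theorem sigma_noTiling : Sigma0 1 NoTiling := by
  refine ⟨{z | CC z.unpair.1 (Nat.pair 0 z.unpair.2)}, ?_, fun x => ?_⟩
  · exact comp_of_prim (prim_CC u1 (Primrec₂.natPair.comp (Primrec.const 0) u2)).not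
  · rw [mem_noTiling]
    simp

theorem sigma_pTileFin : Sigma0 2 PTileFin := by
  refine ⟨{z | CC z.unpair.1 z.unpair.2 ∧ ∀ m, ¬ CC z.unpair.1 (Nat.pair 0 m)}, ?_, fun x => ?_⟩
  · refine ⟨{w | ¬ CC w.unpair.1.unpair.1 w.unpair.1.unpair.2 ∨
      CC w.unpair.1.unpair.1 (Nat.pair 0 w.unpair.2)}, ?_, fun z => ?_⟩
    · exact comp_of_prim ((prim_CC (u1.comp u1) (u2.comp u1)).not.or
        (prim_CC (u1.comp u1) (Primrec₂.natPair.comp (Primrec.const 0) u2))).not
    · simp only [mem_compl_iff, mem_ofPred_eq, Nat.unpair_pair]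
      rw [not_and_or]
      push Not
      constructor
      · rintro (h | ⟨m, h⟩)
        · exact ⟨0, Or.inl h⟩
        · exact ⟨m, Or.inr h⟩
      · rintro ⟨m, h | h⟩
        · exact Or.inl h
        · exact Or.inr ⟨m, h⟩
  · rw [mem_pTileFin, mem_allPeriodic, mem_noTiling]
    simp only [mem_ofPred_eq, Nat.unpair_pair]
    push Not
    constructor
    · rintro ⟨⟨y, h⟩, h2⟩
      exact ⟨y, h, h2⟩
    · rintro ⟨y, h, h2⟩
      exact ⟨⟨y, h⟩, h2⟩

theorem sigma_compl_pTileFin : Sigma0 2 PTileFinᶜ := by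
  refine ⟨{z | (∀ y, ¬ CC z.unpair.1 y) ∨ CC z.unpair.1 (Nat.pair 0 z.unpair.2)}, ?_, fun x => ?_⟩
  · refine ⟨{w | CC w.unpair.1.unpair.1 w.unpair.2 ∧
      ¬ CC w.unpair.1.unpair.1 (Nat.pair 0 w.unpair.1.unpair.2)}, ?_, fun z => ?_⟩
    · exact comp_of_prim ((prim_CC (u1.comp u1) u2).and
        (prim_CC (u1.comp u1) (Primrec₂.natPair.comp (Primrec.const 0) (u2.comp u1))).not).not
    · simp only [mem_compl_iff, mem_ofPred_eq, Nat.unpair_pair]
      rw [not_or]
      push Not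
      constructor
      · rintro ⟨⟨y, h⟩, h2⟩
        exact ⟨y, h, h2⟩
      · rintro ⟨y, h, h2⟩
        exact ⟨⟨y, h⟩, h2⟩
  · rw [mem_compl_iff, mem_pTileFin, mem_allPeriodic, mem_noTiling]
    simp only [mem_ofPred_eq, Nat.unpair_pair]
    rw [not_and_or, not_not]
    push Not
    constructor
    · rintro (h | ⟨m, h⟩)
      · exact ⟨0, Or.inl h⟩
      · exact ⟨m, Or.inr h⟩
    · rintro ⟨m, h | h⟩
      · exact Or.inl h
      · exact Or.inr ⟨m, h⟩

theorem uniform_tilings (S : List Tile) (h : ∀ T, IsTiling S T → IsPeriodic T) :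
    ∃ n : ℕ, ∀ T, IsTiling S T → ∃ v : ℤ × ℤ, v ≠ 0 ∧ |v.1| ≤ n ∧ |v.2| ≤ n ∧
      ∀ x, T (x + v) = T x := by
  have hc : IsCompact {T : ℤ × ℤ → Tile | IsTiling S T} :=
    (isCompact_mem S).of_isClosed_subset (isClosed_tilings S) fun T hT => hT.1
  obtain ⟨N, hN⟩ := uniform hc (inv_tilings S) fun T hT => h T hT
  refine ⟨N, fun T hT => ?_⟩
  obtain ⟨v, hv, hn, hp⟩ := hN T hT
  exact ⟨v, hv, hn.1, hn.2, hp⟩

end Pool.Agent.V11250.WT
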