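import Pool.Agent.V11250.WT.Glue2

/-!
# A uniform bound for the periods

Let `X` be a compact shift-invariant set of maps `ℤ × ℤ → α` all of whose members have a nonzero
period.  Then there is `n` such that all members of `X` have a nonzero period of size at most `n`.
-/

set_option autoImplicit false

namespace Pool.Agent.V11250.WT

open Set

variable {α : Type*}

/-- The maps with period `v`. -/
def Per (v : ℤ × ℤ) : Set (ℤ × ℤ → α) := {T | ∀ x, T (x + v) = T x}

/-- Shift invariance. -/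
def Inv (X : Set (ℤ × ℤ → α)) : Prop := ∀ T ∈ X, ∀ y, (fun x => T (x + y)) ∈ X

/-- All members have a nonzero period of size at most `n`, for some `n`. -/
def Unif (X : Set (ℤ × ℤ → α)) : Prop := ∃ n : ℕ, ∀ T ∈ X, ∃ v, v ≠ 0 ∧ nb n v ∧ T ∈ Per v

variable [TopologicalSpace α] [DiscreteTopology α]

theorem isClosed_per (v : ℤ × ℤ) : IsClosed (Per v : Set (ℤ × ℤ → α)) := by
  simp only [Per, ofPred_forall]
  exact isClosed_iInter fun x => isClosed_eq (continuous_apply _) (continuous_apply _)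

theorem finite_nb (r : ℤ) : {z : ℤ × ℤ | nb r z}.Finite := by
  refine (Set.finite_Icc ((-r, -r) : ℤ × ℤ) (r, r)).subset ?_
  rintro ⟨a, b⟩ ⟨h1, h2⟩
  simp only [abs_le] at h1 h2
  exact ⟨⟨h1.1, h2.1⟩, ⟨h1.2, h2.2⟩⟩

theorem isOpen_eq (a b : ℤ × ℤ) : IsOpen {T : ℤ × ℤ → α | T a = T b} := by
  have h : Continuous (fun T : ℤ × ℤ → α => (T a, T b)) :=
    (continuous_apply a).prodMk (continuous_apply b)
  exact (isOpen_discrete {p : α × α | p.1 = p.2}).preimage h

theorem isOpen_perOn (r : ℤ) (v : ℤ × ℤ) : IsOpen {T : ℤ × ℤ → α | PerOn T 0 r v} := by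
  have : {T : ℤ × ℤ → α | PerOn T 0 r v} =
      ⋂ z ∈ {z : ℤ × ℤ | nb r z}, {T | nb r (z + v) → T (0 + (z + v)) = T (0 + z)} := by
    ext T
    simp [PerOn]
  rw [this]
  refine (finite_nb r).isOpen_biInter fun z _ => ?_
  by_cases h : nb r (z + v)
  · simpa [h] using isOpen_eq (0 + (z + v)) (0 + z)
  · simp [h]

theorem isClosed_notLoc (n r : ℤ) : IsClosed {T : ℤ × ℤ → α | ¬ Loc T n r 0} := by
  rw [← isOpen_compl_iff]
  have : {T : ℤ × ℤ → α | ¬ Loc T n r 0}ᶜ =
      ⋃ v : {v : ℤ × ℤ // v ≠ 0 ∧ nb n v}, {T | PerOn T 0 r v.1} := by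
    ext T
    simp only [mem_compl_iff, mem_ofPred_eq, not_not, mem_iUnion, Loc, Subtype.exists]
    constructor
    · rintro ⟨v, h1, h2, h3⟩
      exact ⟨v, ⟨h1, h2⟩, h3⟩
    · rintro ⟨v, ⟨h1, h2⟩, h3⟩
      exact ⟨v, h1, h2, h3⟩
  rw [this]
  exact isOpen_iUnion fun v => isOpen_perOn _ _

omit [TopologicalSpace α] [DiscreteTopology α] in
theorem loc_shift {T : ℤ × ℤ → α} {n r : ℤ} {x : ℤ × ℤ} (h : Loc (fun z => T (z + x)) n r 0) :
    Loc T n r x := by
  obtain ⟨v, h1, h2, h3⟩ := h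
  refine ⟨v, h1, h2, ?_⟩
  intro z hz hz'
  have := h3 z hz hz'
  simp only [zero_add] at this
  rw [add_comm x (z + v), add_comm x z]
  exact this

omit [TopologicalSpace α] [DiscreteTopology α] in
theorem unif_of_loc {X : Set (ℤ × ℤ → α)} (hi : Inv X) {n : ℕ} (h : ∀ T ∈ X, Loc T n (rad n) 0) :
    Unif X := by
  refine ⟨(MM n * n).toNat, fun T hT => ?_⟩
  obtain ⟨w, h1, h2, h3⟩ := glue (T := T) (n := n) (fun x => loc_shift (h _ (hi T hT x)))
  refine ⟨w, h1, h2.mono ?_, h3⟩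
  exact Int.self_le_toNat _

omit [TopologicalSpace α] [DiscreteTopology α] in
theorem loc_of_per {T : ℤ × ℤ → α} {n r : ℤ} {v : ℤ × ℤ} (hv : v ≠ 0) (hn : nb n v)
    (h : T ∈ Per v) : Loc T n r 0 :=
  ⟨v, hv, hn, fun z _ _ => by rw [← add_assoc]; exact h _⟩

/-- **Uniform bound.** -/
theorem uniform {X : Set (ℤ × ℤ → α)} (hX : IsCompact X) (hi : Inv X)
    (hp : ∀ T ∈ X, ∃ v, v ≠ 0 ∧ T ∈ Per v) : Unif X := by
  by_contra hU
  obtain ⟨Z, hZ⟩ := zorn_superset {Z : Set (ℤ × ℤ → α) | Z ⊆ X ∧ IsClosed Z ∧ Inv Z ∧ ¬ Unif Z} (by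
    intro c hc hchain
    rcases c.eq_empty_or_nonempty with rfl | hne
    · exact ⟨X, ⟨subset_rfl, hX.isClosed, hi, hU⟩, by simp⟩
    · refine ⟨⋂₀ c, ⟨?_, ?_, ?_, ?_⟩, fun s hs => sInter_subset_of_mem hs⟩
      · obtain ⟨Z, hZ⟩ := hne
        exact (sInter_subset_of_mem hZ).trans (hc hZ).1
      · exact isClosed_sInter fun s hs => (hc hs).2.1
      · intro T hT y
        rw [mem_sInter] at hT ⊢
        exact fun s hs => (hc hs).2.2.1 T (hT s hs) y
      · rintro ⟨n, hn⟩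
        set A : Set (ℤ × ℤ → α) := {T | ¬ Loc T n (rad n) 0} with hA
        have hAc : IsClosed A := isClosed_notLoc _ _
        have hex : ∃ U ∈ c, U ∩ A = ∅ := by
          by_contra hcon
          push Not at hcon
          have h1 : (⋂₀ ((fun U => U ∩ A) '' c)).Nonempty := by
            have : Nonempty ((fun U => U ∩ A) '' c) := by
              obtain ⟨Z, hZ⟩ := hne
              exact ⟨⟨Z ∩ A, Z, hZ, rfl⟩⟩
            apply IsCompact.nonempty_sInter_of_directed_nonempty_isCompact_isClosed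
            · rintro _ ⟨U, hU, rfl⟩ _ ⟨V, hV, rfl⟩
              rcases hchain.total hU hV with h | h
              · exact ⟨U ∩ A, ⟨U, hU, rfl⟩, subset_rfl, inter_subset_inter_left _ h⟩
              · exact ⟨V ∩ A, ⟨V, hV, rfl⟩, inter_subset_inter_left _ h, subset_rfl⟩
            · rintro _ ⟨U, hU, rfl⟩
              exact hcon U hU
            · rintro _ ⟨U, hU, rfl⟩
              exact (hX.of_isClosed_subset ((hc hU).2.1.inter hAc)
                (inter_subset_left.trans (hc hU).1))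
            · rintro _ ⟨U, hU, rfl⟩
              exact (hc hU).2.1.inter hAc
          obtain ⟨T, hT⟩ := h1
          have hTc : T ∈ ⋂₀ c := by
            rw [mem_sInter]
            intro U hU
            exact (mem_sInter.1 hT (U ∩ A) ⟨U, hU, rfl⟩).1
          have hTA : T ∈ A := by
            obtain ⟨Z, hZ⟩ := hne
            exact (mem_sInter.1 hT (Z ∩ A) ⟨Z, hZ, rfl⟩).2
          obtain ⟨v, hv, hvn, hvT⟩ := hn T hTc
          exact hTA (loc_of_per hv hvn hvT)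
        obtain ⟨U, hUc, hUA⟩ := hex
        refine (hc hUc).2.2.2 (unif_of_loc (hc hUc).2.2.1 (n := n) fun T hT => ?_)
        by_contra h
        have : T ∈ U ∩ A := ⟨hT, h⟩
        rw [hUA] at this
        exact this)
  obtain ⟨⟨hZX, hZc, hZi, hZU⟩, hmin⟩ := hZ
  have hZk : IsCompact Z := hX.of_isClosed_subset hZc hZX
  have hZne : Z.Nonempty := by
    rw [nonempty_iff_ne_empty]
    rintro rfl
    exact hZU ⟨0, by simp⟩
  have : CompactSpace Z := isCompact_iff_compactSpace.1 hZk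
  have : Nonempty Z := hZne.to_subtype
  obtain ⟨v, hv⟩ := nonempty_interior_of_iUnion_of_closed
    (f := fun v : {v : ℤ × ℤ // v ≠ 0} => {T : Z | T.1 ∈ Per v.1})
    (fun v => (isClosed_per v.1).preimage continuous_subtype_val) (by
      rw [eq_univ_iff_forall]
      intro T
      obtain ⟨v, h1, h2⟩ := hp T.1 (hZX T.2)
      exact mem_iUnion.2 ⟨⟨v, h1⟩, h2⟩)
  obtain ⟨T0, hT0⟩ := hv
  obtain ⟨U, hU, hUT⟩ := isOpen_induced_iff.1
    (isOpen_interior (s := {T : Z | T.1 ∈ Per v.1}))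
  have hUper : ∀ T ∈ Z, T ∈ U → T ∈ Per v.1 := by
    intro T hT hTU
    have : (⟨T, hT⟩ : Z) ∈ interior {T : Z | T.1 ∈ Per v.1} := by
      rw [← hUT]; exact hTU
    have h2 : (⟨T, hT⟩ : Z) ∈ {T : Z | T.1 ∈ Per v.1} := interior_subset this
    exact h2
  have hT0U : T0.1 ∈ U := by
    have : T0 ∈ Subtype.val ⁻¹' U := by rw [hUT]; exact hT0
    exact this
  set W : Set (ℤ × ℤ → α) := ⋃ y : ℤ × ℤ, {T | (fun x => T (x + y)) ∈ U} with hW
  have hWo : IsOpen W := isOpen_iUnion fun y =>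
    hU.preimage (continuous_pi fun x => continuous_apply _)
  have hWper : ∀ T ∈ Z, T ∈ W → T ∈ Per v.1 := by
    intro T hT hTW
    obtain ⟨y, hy⟩ := mem_iUnion.1 hTW
    have h1 := hUper _ (hZi T hT y) hy
    intro x
    have h2 := h1 (x - y)
    simp only at h2
    rw [show x - y + v.1 + y = x + v.1 by abel, show x - y + y = x by abel] at h2
    exact h2
  have hdiff : Unif (Z \ W) := by
    by_contra hcon
    have h1 : Z \ W ∈ {Z : Set (ℤ × ℤ → α) | Z ⊆ X ∧ IsClosed Z ∧ Inv Z ∧ ¬ Unif Z} := by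
      refine ⟨sdiff_subset.trans hZX, hZc.sdiff hWo, ?_, hcon⟩
      intro T hT y
      refine ⟨hZi T hT.1 y, fun h => hT.2 ?_⟩
      obtain ⟨y', hy'⟩ := mem_iUnion.1 h
      refine mem_iUnion.2 ⟨y' + y, ?_⟩
      have h3 : (fun x => T (x + y' + y)) ∈ U := hy'
      have h4 : (fun x => T (x + (y' + y))) = fun x => T (x + y' + y) := by
        funext x; rw [add_assoc]
      show (fun x => T (x + (y' + y))) ∈ U
      rw [h4]
      exact h3
    have h2 := hmin h1 sdiff_subset T0.2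
    refine h2.2 (mem_iUnion.2 ⟨0, ?_⟩)
    show (fun x => T0.1 (x + 0)) ∈ U
    simpa using hT0U
  obtain ⟨n, hn⟩ := hdiff
  refine hZU ⟨max n (max v.1.1.natAbs v.1.2.natAbs), fun T hT => ?_⟩
  by_cases hTW : T ∈ W
  · refine ⟨v.1, v.2, ⟨?_, ?_⟩, hWper T hT hTW⟩
    · rw [Int.abs_eq_natAbs]; push_cast; simp
    · rw [Int.abs_eq_natAbs]; push_cast; simp
  · obtain ⟨w, h1, h2, h3⟩ := hn T ⟨hT, hTW⟩
    exact ⟨w, h1, h2.mono (by push_cast; simp), h3⟩

end Pool.Agent.V11250.WT
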