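import Pool.Agent.V11250.WT.Unif
import Pool.Agent.V11250.WT.Defs

/-!
# Finite patterns and tilings
-/

set_option autoImplicit false

namespace Pool.Agent.V11250.WT

open Set

/-- The radius as a natural number. -/
def radN (n : ℕ) : ℕ := 4 * Nat.factorial (2 * n ^ 2) * n ^ 3 + 2 * n ^ 2 + 2 * n

theorem radN_eq (n : ℕ) : ((radN n : ℕ) : ℤ) = rad n := by
  unfold radN rad rho MM
  push_cast
  ring

/-- The side length of the window. -/
def KK (n : ℕ) : ℕ := 2 * radN n + 1

/-- The side length of the pattern. -/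
def side (n m : ℕ) : ℕ := 2 * m + KK n

/-- The tile of the pattern `p` (rows of length `k`) at the place `(i, j)`. -/
def tileAt (p : List Tile) (k i j : ℕ) : Tile := p.getD (i * k + j) (0, 0, 0, 0)

/-- The adjacency conditions inside the square of side length `k`. -/
def AdjN (p : List Tile) (k : ℕ) : Prop :=
  ∀ i < k, ∀ j < k, (i + 1 < k → east (tileAt p k i j) = west (tileAt p k (i + 1) j)) ∧
    (j + 1 < k → north (tileAt p k i j) = south (tileAt p k i (j + 1)))

/-- The window of side length `K` of the function `f` has a nonzero period of size at most `n`. -/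
def QN (n K : ℕ) (f : ℕ → ℕ → Tile) : Prop :=
  ∃ a < n + 1, ∃ b < n + 1, ¬ (a = 0 ∧ b = 0) ∧
    ((∀ i < K, ∀ j < K, i + a < K → j + b < K → f (i + a) (j + b) = f i j) ∨
      (∀ i < K, ∀ j < K, i + a < K → j + b < K → f (i + a) j = f i (j + b)))

/-- The finite condition. -/
def Cond (S : List Tile) (n m : ℕ) : Prop :=
  ∀ p : List Tile, p.length = side n m * side n m → (∀ t ∈ p, t ∈ S) → AdjN p (side n m) →
    QN n (KK n) fun i j => tileAt p (side n m) (m + i) (m + j)

theorem qn_iff {T : ℤ × ℤ → Tile} {n R : ℕ} {f : ℕ → ℕ → Tile}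
    (hf : ∀ i j, i < 2 * R + 1 → j < 2 * R + 1 → f i j = T ((i : ℤ) - R, (j : ℤ) - R)) :
    QN n (2 * R + 1) f ↔ Loc T n R 0 := by
  constructor
  · rintro ⟨a, ha, b, hb, hab, h | h⟩
    · refine ⟨((a : ℤ), (b : ℤ)), ?_, ⟨?_, ?_⟩, ?_⟩
      · intro h0
        have := Prod.ext_iff.1 h0
        simp only [Prod.fst_zero, Prod.snd_zero, Nat.cast_eq_zero] at this
        exact hab this
      · simp only [Nat.abs_cast]; exact_mod_cast Nat.lt_succ_iff.1 ha
      · simp only [Nat.abs_cast]; exact_mod_cast Nat.lt_succ_iff.1 hb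
      · rintro ⟨z1, z2⟩ ⟨hz1, hz2⟩ ⟨hw1, hw2⟩
        simp only [abs_le, Prod.mk_add_mk] at hz1 hz2 hw1 hw2
        obtain ⟨i, hi⟩ : ∃ i : ℕ, (i : ℤ) = z1 + R := ⟨(z1 + R).toNat, Int.toNat_of_nonneg (by omega)⟩
        obtain ⟨j, hj⟩ : ∃ j : ℕ, (j : ℤ) = z2 + R := ⟨(z2 + R).toNat, Int.toNat_of_nonneg (by omega)⟩
        have h1 := h i (by omega) j (by omega) (by omega) (by omega)
        rw [hf _ _ (by omega) (by omega), hf _ _ (by omega) (by omega)] at h1
        simp only [zero_add, Prod.mk_add_mk]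
        rw [show z1 + (a : ℤ) = ((i + a : ℕ) : ℤ) - R by push_cast; omega,
          show z2 + (b : ℤ) = ((j + b : ℕ) : ℤ) - R by push_cast; omega,
          show z1 = (i : ℤ) - R by omega, show z2 = (j : ℤ) - R by omega]
        exact h1
    · refine ⟨((a : ℤ), -(b : ℤ)), ?_, ⟨?_, ?_⟩, ?_⟩
      · intro h0
        have := Prod.ext_iff.1 h0
        simp only [Prod.fst_zero, Prod.snd_zero, Nat.cast_eq_zero, neg_eq_zero] at this
        exact hab this
      · simp only [Nat.abs_cast]; exact_mod_cast Nat.lt_succ_iff.1 ha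
      · simp only [abs_neg, Nat.abs_cast]; exact_mod_cast Nat.lt_succ_iff.1 hb
      · rintro ⟨z1, z2⟩ ⟨hz1, hz2⟩ ⟨hw1, hw2⟩
        simp only [abs_le, Prod.mk_add_mk] at hz1 hz2 hw1 hw2
        obtain ⟨i, hi⟩ : ∃ i : ℕ, (i : ℤ) = z1 + R := ⟨(z1 + R).toNat, Int.toNat_of_nonneg (by omega)⟩
        obtain ⟨j, hj⟩ : ∃ j : ℕ, (j : ℤ) = z2 - b + R :=
          ⟨(z2 - b + R).toNat, Int.toNat_of_nonneg (by omega)⟩
        have h1 := h i (by omega) j (by omega) (by omega) (by omega)
        rw [hf _ _ (by omega) (by omega), hf _ _ (by omega) (by omega)] at h1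
        simp only [zero_add, Prod.mk_add_mk]
        rw [show z1 + (a : ℤ) = ((i + a : ℕ) : ℤ) - R by push_cast; omega,
          show z2 + -(b : ℤ) = (j : ℤ) - R by omega,
          show z1 = (i : ℤ) - R by omega, show z2 = ((j + b : ℕ) : ℤ) - R by push_cast; omega]
        exact h1
  · rintro ⟨v, hv, hvn, hvp⟩
    obtain ⟨⟨v1, v2⟩, hv, hvn, hvp, h0⟩ : ∃ w : ℤ × ℤ, w ≠ 0 ∧ nb n w ∧ PerOn T 0 R w ∧ 0 ≤ w.1 := by
      rcases le_total 0 v.1 with h | h
      · exact ⟨v, hv, hvn, hvp, h⟩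
      · exact ⟨-v, neg_ne_zero.2 hv, nb_neg hvn, hvp.neg, by simpa using h⟩
    obtain ⟨hn1, hn2⟩ := hvn
    simp only [abs_le] at hn1 hn2 h0
    obtain ⟨a, ha⟩ : ∃ a : ℕ, (a : ℤ) = v1 := ⟨v1.toNat, Int.toNat_of_nonneg h0⟩
    rcases le_total 0 v2 with h | h
    · obtain ⟨b, hb⟩ : ∃ b : ℕ, (b : ℤ) = v2 := ⟨v2.toNat, Int.toNat_of_nonneg h⟩
      refine ⟨a, by omega, b, by omega, ?_, Or.inl ?_⟩
      · rintro ⟨rfl, rfl⟩
        exact hv (by rw [← ha, ← hb]; rfl)
      · intro i hi j hj hia hjb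
        rw [hf _ _ hia hjb, hf _ _ hi hj]
        have := hvp ((i : ℤ) - R, (j : ℤ) - R) ⟨by simp only [abs_le]; omega, by simp only [abs_le]; omega⟩
          ⟨by simp only [Prod.mk_add_mk, abs_le]; omega, by simp only [Prod.mk_add_mk, abs_le]; omega⟩
        simp only [zero_add, Prod.mk_add_mk] at this
        rw [← this]
        congr 2
        · push_cast; omega
        · push_cast; omega
    · obtain ⟨b, hb⟩ : ∃ b : ℕ, (b : ℤ) = -v2 := ⟨(-v2).toNat, Int.toNat_of_nonneg (by omega)⟩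
      refine ⟨a, by omega, b, by omega, ?_, Or.inr ?_⟩
      · rintro ⟨rfl, rfl⟩
        apply hv
        ext
        · simp only [Prod.fst_zero]; omega
        · simp only [Prod.snd_zero]; omega
      · intro i hi j hj hia hjb
        rw [hf _ _ hia hj, hf _ _ hi hjb]
        have := hvp ((i : ℤ) - R, ((j + b : ℕ) : ℤ) - R)
          ⟨by simp only [abs_le]; omega, by simp only [abs_le]; omega⟩
          ⟨by simp only [Prod.mk_add_mk, abs_le]; omega, by simp only [Prod.mk_add_mk, abs_le]; omega⟩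
        simp only [zero_add, Prod.mk_add_mk] at this
        rw [← this]
        congr 2
        · push_cast; omega
        · push_cast; omega

end Pool.Agent.V11250.WT
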