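import Pool.Agent.V11250.WT.Wang

/-!
# Compactness: the finite condition and the tilings
-/

set_option autoImplicit false

namespace Pool.Agent.V11250.WT

open Set

theorem tileAt_map {T : ℤ × ℤ → Tile} {k : ℕ} {c : ℤ} {i j : ℕ} (hi : i < k) (hj : j < k) :
    tileAt ((List.range (k * k)).map fun t => T (((t / k : ℕ) : ℤ) - c, ((t % k : ℕ) : ℤ) - c)) k i j =
      T ((i : ℤ) - c, (j : ℤ) - c) := by
  have hk : 0 < k := by omega
  have hlt : i * k + j < k * k := by
    calc i * k + j < i * k + k := by omega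
      _ = (i + 1) * k := by ring
      _ ≤ k * k := Nat.mul_le_mul_right _ hi
  unfold tileAt
  rw [List.getD_eq_getElem?_getD, List.getElem?_map, List.getElem?_range hlt]
  simp only [Option.map_some, Option.getD_some]
  have h1 : (i * k + j) / k = i := by
    rw [Nat.mul_comm, Nat.mul_add_div hk, Nat.div_eq_of_lt hj, add_zero]
  have h2 : (i * k + j) % k = j := by
    rw [Nat.mul_comm, Nat.mul_add_mod, Nat.mod_eq_of_lt hj]
  rw [h1, h2]

theorem loc_of_cond {S : List Tile} {n m : ℕ} (h : Cond S n m) {T : ℤ × ℤ → Tile}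
    (hT : IsTiling S T) : Loc T n (rad n) 0 := by
  set k := side n m with hk
  set c : ℤ := (m : ℤ) + radN n with hc
  set p : List Tile := (List.range (k * k)).map
    fun t => T (((t / k : ℕ) : ℤ) - c, ((t % k : ℕ) : ℤ) - c) with hp
  have hq := h p (by simp [hp, ← hk]) (by
    intro t ht
    rw [hp, List.mem_map] at ht
    obtain ⟨s, _, rfl⟩ := ht
    exact hT.1 _) (by
    intro i hi j hj
    refine ⟨fun hi' => ?_, fun hj' => ?_⟩
    · rw [hp, ← hk, tileAt_map hi hj, tileAt_map hi' hj, hT.2.1]
      congr 2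
      push_cast
      ring_nf
    · rw [hp, ← hk, tileAt_map hi hj, tileAt_map hi hj', hT.2.2]
      congr 2
      push_cast
      ring_nf)
  rw [← hk, show KK n = 2 * radN n + 1 from rfl] at hq
  have := (qn_iff (T := T) (by
    intro i j hi hj
    have h1 : m + i < k := by rw [hk, side, KK]; omega
    have h2 : m + j < k := by rw [hk, side, KK]; omega
    rw [hp, tileAt_map h1 h2]
    congr 2
    · rw [hc]; push_cast; ring
    · rw [hc]; push_cast; ring)).1 hq
  rw [radN_eq] at this
  exact this

/-- The clamped coordinate. -/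
def clamp (k : ℕ) (x : ℤ) : ℕ := min x.toNat (k - 1)

theorem clamp_lt {k : ℕ} (hk : 0 < k) (x : ℤ) : clamp k x < k := by
  unfold clamp
  omega

theorem clamp_of {k : ℕ} {x : ℤ} (h0 : 0 ≤ x) (h1 : x < k) : ((clamp k x : ℕ) : ℤ) = x := by
  unfold clamp
  omega

theorem tileAt_mem {p : List Tile} {S : List Tile} {k i j : ℕ} (hp : p.length = k * k)
    (hS : ∀ t ∈ p, t ∈ S) (hi : i < k) (hj : j < k) : tileAt p k i j ∈ S := by
  have hlt : i * k + j < p.length := by
    rw [hp]
    calc i * k + j < i * k + k := by omega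
      _ = (i + 1) * k := by ring
      _ ≤ k * k := Nat.mul_le_mul_right _ hi
  unfold tileAt
  rw [List.getD_eq_getElem _ _ hlt]
  exact hS _ (List.getElem_mem hlt)

/-- The closed sets of the compactness argument. -/
def CS (S : List Tile) (n m : ℕ) : Set (ℤ × ℤ → Tile) :=
  {T | (∀ x, T x ∈ S) ∧ (∀ i j : ℤ, |i| < m → |j| < m →
    east (T (i, j)) = west (T (i + 1, j)) ∧ north (T (i, j)) = south (T (i, j + 1))) ∧
    ¬ Loc T n (rad n) 0}

theorem isCompact_mem (S : List Tile) : IsCompact {T : ℤ × ℤ → Tile | ∀ x, T x ∈ S} := by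
  have h : {T : ℤ × ℤ → Tile | ∀ x, T x ∈ S} = Set.pi univ fun _ => {t : Tile | t ∈ S} := by
    ext T
    simp
  rw [h]
  exact isCompact_univ_pi fun _ => (List.finite_toSet S).isCompact

theorem isClosed_CS (S : List Tile) (n m : ℕ) : IsClosed (CS S n m) := by
  have h1 : IsClosed {T : ℤ × ℤ → Tile | ∀ x, T x ∈ S} := (isCompact_mem S).isClosed
  have h2 : IsClosed {T : ℤ × ℤ → Tile | ∀ i j : ℤ, |i| < m → |j| < m →
      east (T (i, j)) = west (T (i + 1, j)) ∧ north (T (i, j)) = south (T (i, j + 1))} := by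
    simp only [ofPred_forall]
    refine isClosed_iInter fun i => isClosed_iInter fun j => isClosed_iInter fun _ =>
      isClosed_iInter fun _ => ?_
    have e1 : IsClosed {T : ℤ × ℤ → Tile | east (T (i, j)) = west (T (i + 1, j))} := by
      have hc : Continuous (fun T : ℤ × ℤ → Tile => (T (i, j), T (i + 1, j))) :=
        (continuous_apply _).prodMk (continuous_apply _)
      exact (isClosed_discrete {q : Tile × Tile | east q.1 = west q.2}).preimage hc
    have e2 : IsClosed {T : ℤ × ℤ → Tile | north (T (i, j)) = south (T (i, j + 1))} := by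
      have hc : Continuous (fun T : ℤ × ℤ → Tile => (T (i, j), T (i, j + 1))) :=
        (continuous_apply _).prodMk (continuous_apply _)
      exact (isClosed_discrete {q : Tile × Tile | north q.1 = south q.2}).preimage hc
    exact e1.inter e2
  exact h1.inter (h2.inter (isClosed_notLoc _ _))

theorem CS_nonempty {S : List Tile} {n m : ℕ} (h : ¬ Cond S n m) : (CS S n m).Nonempty := by
  unfold Cond at h
  push Not at h
  obtain ⟨p, hl, hS, hadj, hq⟩ := h
  set k := side n m with hk
  have hk' : k = 2 * m + (2 * radN n + 1) := rfl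
  set T : ℤ × ℤ → Tile := fun z =>
    tileAt p k (clamp k (z.1 + (m + radN n))) (clamp k (z.2 + (m + radN n))) with hT
  refine ⟨T, ?_, ?_, ?_⟩
  · intro x
    exact tileAt_mem hl hS (clamp_lt (by omega) _) (clamp_lt (by omega) _)
  · intro i j hi hj
    rw [abs_lt] at hi hj
    obtain ⟨a, ha⟩ : ∃ a : ℕ, (a : ℤ) = i + (m + radN n) :=
      ⟨(i + (m + radN n)).toNat, Int.toNat_of_nonneg (by omega)⟩
    obtain ⟨b, hb⟩ : ∃ b : ℕ, (b : ℤ) = j + (m + radN n) :=
      ⟨(j + (m + radN n)).toNat, Int.toNat_of_nonneg (by omega)⟩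
    have c1 : clamp k (i + (m + radN n)) = a := by
      have := clamp_of (k := k) (x := i + (m + radN n)) (by omega) (by omega)
      omega
    have c2 : clamp k (j + (m + radN n)) = b := by
      have := clamp_of (k := k) (x := j + (m + radN n)) (by omega) (by omega)
      omega
    have c3 : clamp k (i + 1 + (m + radN n)) = a + 1 := by
      have := clamp_of (k := k) (x := i + 1 + (m + radN n)) (by omega) (by omega)
      omega
    have c4 : clamp k (j + 1 + (m + radN n)) = b + 1 := by
      have := clamp_of (k := k) (x := j + 1 + (m + radN n)) (by omega) (by omega)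
      omega
    have h1 := hadj a (by omega) b (by omega)
    simp only [hT, c1, c2, c3, c4]
    exact ⟨h1.1 (by omega), h1.2 (by omega)⟩
  · intro hloc
    apply hq
    rw [← radN_eq] at hloc
    refine (qn_iff (T := T) ?_).2 hloc
    intro i j hi hj
    have c1 : clamp k (((i : ℤ) - radN n) + (m + radN n)) = m + i := by
      have := clamp_of (k := k) (x := ((i : ℤ) - radN n) + (m + radN n)) (by omega) (by omega)
      omega
    have c2 : clamp k (((j : ℤ) - radN n) + (m + radN n)) = m + j := by
      have := clamp_of (k := k) (x := ((j : ℤ) - radN n) + (m + radN n)) (by omega) (by omega)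
      omega
    simp only [hT, c1, c2]

theorem exists_cond_iff (S : List Tile) (n : ℕ) :
    (∃ m, Cond S n m) ↔ ∀ T, IsTiling S T → Loc T n (rad n) 0 := by
  constructor
  · rintro ⟨m, hm⟩ T hT
    exact loc_of_cond hm hT
  · intro h
    by_contra hcon
    push Not at hcon
    have hne := IsCompact.nonempty_iInter_of_sequence_nonempty_isCompact_isClosed (fun m => CS S n m)
      (by
        intro m T hT
        refine ⟨hT.1, fun i j hi hj => hT.2.1 i j (hi.trans ?_) (hj.trans ?_), hT.2.2⟩
        · push_cast; omega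
        · push_cast; omega)
      (fun m => CS_nonempty (hcon m))
      ((isCompact_mem S).of_isClosed_subset (isClosed_CS S n 0) fun T hT => hT.1)
      (fun m => isClosed_CS S n m)
    obtain ⟨T, hT⟩ := hne
    rw [mem_iInter] at hT
    refine (hT 0).2.2 (h T ⟨(hT 0).1, fun i j => ?_, fun i j => ?_⟩)
    · have := (hT (i.natAbs + j.natAbs + 1)).2.1 i j (by rw [Int.abs_eq_natAbs]; omega)
        (by rw [Int.abs_eq_natAbs]; omega)
      exact this.1
    · have := (hT (i.natAbs + j.natAbs + 1)).2.1 i j (by rw [Int.abs_eq_natAbs]; omega)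
        (by rw [Int.abs_eq_natAbs]; omega)
      exact this.2

theorem no_tiling_iff (S : List Tile) : (∃ m, Cond S 0 m) ↔ ¬ ∃ T, IsTiling S T := by
  rw [exists_cond_iff]
  constructor
  · rintro h ⟨T, hT⟩
    obtain ⟨v, hv, ⟨h1, h2⟩, _⟩ := h T hT
    apply hv
    simp only [Nat.cast_zero, abs_nonpos_iff] at h1 h2
    exact Prod.ext h1 h2
  · intro h T hT
    exact absurd ⟨T, hT⟩ h

theorem isClosed_tilings (S : List Tile) : IsClosed {T : ℤ × ℤ → Tile | IsTiling S T} := by
  have h1 : IsClosed {T : ℤ × ℤ → Tile | ∀ x, T x ∈ S} := (isCompact_mem S).isClosed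
  have e1 : IsClosed {T : ℤ × ℤ → Tile | ∀ i j : ℤ, east (T (i, j)) = west (T (i + 1, j))} := by
    simp only [ofPred_forall]
    refine isClosed_iInter fun i => isClosed_iInter fun j => ?_
    have hc : Continuous (fun T : ℤ × ℤ → Tile => (T (i, j), T (i + 1, j))) :=
      (continuous_apply _).prodMk (continuous_apply _)
    exact (isClosed_discrete {q : Tile × Tile | east q.1 = west q.2}).preimage hc
  have e2 : IsClosed {T : ℤ × ℤ → Tile | ∀ i j : ℤ, north (T (i, j)) = south (T (i, j + 1))} := by
    simp only [ofPred_forall]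
    refine isClosed_iInter fun i => isClosed_iInter fun j => ?_
    have hc : Continuous (fun T : ℤ × ℤ → Tile => (T (i, j), T (i, j + 1))) :=
      (continuous_apply _).prodMk (continuous_apply _)
    exact (isClosed_discrete {q : Tile × Tile | north q.1 = south q.2}).preimage hc
  exact h1.inter (e1.inter e2)

theorem inv_tilings (S : List Tile) : Inv {T : ℤ × ℤ → Tile | IsTiling S T} := by
  rintro T ⟨h1, h2, h3⟩ ⟨a, b⟩
  refine ⟨fun x => h1 _, fun i j => ?_, fun i j => ?_⟩
  · have := h2 (i + a) (j + b)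
    simp only [Prod.mk_add_mk]
    rw [this, show i + a + 1 = i + 1 + a by ring]
  · have := h3 (i + a) (j + b)
    simp only [Prod.mk_add_mk]
    rw [this, show j + b + 1 = j + 1 + b by ring]

theorem periodic_iff (S : List Tile) :
    (∃ n m, Cond S n m) ↔ ∀ T, IsTiling S T → IsPeriodic T := by
  constructor
  · rintro ⟨n, hn⟩
    rw [exists_cond_iff] at hn
    obtain ⟨N, hN⟩ := unif_of_loc (inv_tilings S) hn
    intro T hT
    obtain ⟨v, hv, _, hp⟩ := hN T hT
    exact ⟨v, hv, hp⟩
  · intro h
    have hc : IsCompact {T : ℤ × ℤ → Tile | IsTiling S T} :=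
      (isCompact_mem S).of_isClosed_subset (isClosed_tilings S) fun T hT => hT.1
    obtain ⟨N, hN⟩ := uniform hc (inv_tilings S) fun T hT => h T hT
    refine ⟨N, (exists_cond_iff S N).2 fun T hT => ?_⟩
    obtain ⟨v, hv, hn, hp⟩ := hN T hT
    exact loc_of_per hv hn hp

end Pool.Agent.V11250.WT
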